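import Pool.Agent.R650.Ent

/-!
# MP_60863d_al: finite algebraic entropy on a subgroup of infinite index

If an amenable group `G` acts on an abelian group `A`, and the restriction of the action to some
subgroup `H` of infinite index has finite algebraic entropy, then the action has algebraic entropy
zero.  The subgroup need not be normal.

The definitions (in `Pool/Agent/R650/EntDefs.lean`):

* `IsRightFolner F`: `F` is a right Folner net (non-empty finite `F i`, `|F_i g Δ F_i| / |F_i| → 0`
  for every `g`);
* `traj F X`: the trajectory `T_F(X) = ∑_{g ∈ F} g • X`;
* `Halg F X`: the entropy of `X`, the upper limit of `log |T_{F_i}(X)| / |F_i|`;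
* `halg A F`: its supremum over all finite non-empty subsets `X` of `A`.

The entropies are computed along arbitrary right Folner nets `F` of `G` and `E` of `H`.  (The
lemma `tendsto_Halg` of `Pool/Agent/R650/Ent.lean` shows that the upper limits are limits and do not depend on
the nets.)
-/

set_option autoImplicit false

namespace Pool.Agent.Results.MP_60863d_al.InfiniteIndex

open Pool.Agent.R650.Ent (IsRightFolner halg)

universe u v w w'

/-- If the restriction of the action to a subgroup of infinite index has finite algebraic entropy,
the action has algebraic entropy zero. -/
theorem result {G : Type u} [Group G] {A : Type v} [AddCommGroup A] [DistribMulAction G A]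
    (H : Subgroup G) (hH : Infinite (G ⧸ H))
    {I : Type w} [Preorder I] [IsDirected I (· ≤ ·)] [Nonempty I]
    (F : I → Finset G) (hF : IsRightFolner F)
    {J : Type w'} [Preorder J] [IsDirected J (· ≤ ·)] [Nonempty J]
    (E : J → Finset H) (hE : IsRightFolner E)
    (h : halg A E < ⊤) : halg A F = 0 :=
  Pool.Agent.R650.Ent.halg_eq_zero H hH hF hE.1 h

end Pool.Agent.Results.MP_60863d_al.InfiniteIndex
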